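import Pool.Agent.Y215.CT.Stm

/-!
# Project CT: choice of the parameters
-/

set_option autoImplicit false

namespace Pool.Agent.Y726.CT

open Filter Finset Pool.Agent.Y215.CT
open scoped Classical

lemma ev_pow (K : ℝ) (n : ℕ) {r : ℝ} (hr : 0 < r) :
    ∀ᶠ X : ℝ in atTop, K * Real.log X ^ n ≤ X ^ r := by
  have h := isLittleO_log_rpow_rpow_atTop (n : ℝ) hr
  have h2 := h.bound (c := 1 / (|K| + 1)) (by positivity)
  filter_upwards [h2, eventually_ge_atTop (1 : ℝ)] with X hX hX1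
  have hl : 0 ≤ Real.log X := Real.log_nonneg hX1
  have hx : 0 ≤ X ^ r := Real.rpow_nonneg (by linarith) r
  rw [Real.rpow_natCast, Real.norm_eq_abs, Real.norm_eq_abs, abs_of_nonneg (by positivity),
    abs_of_nonneg hx] at hX
  have hK : K ≤ |K| + 1 := (le_abs_self K).trans (by linarith)
  calc K * Real.log X ^ n ≤ (|K| + 1) * Real.log X ^ n := by gcongr
    _ ≤ (|K| + 1) * (1 / (|K| + 1) * X ^ r) := by gcongr
    _ = X ^ r := by field_simp

lemma ev_log (K : ℝ) : ∀ᶠ X : ℝ in atTop, K ≤ Real.log X :=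
  Real.tendsto_log_atTop.eventually_ge_atTop K

/-- the size of the primes -/
noncomputable def rho (g : ℕ) (X : ℝ) : ℝ := min (X ^ (1 / (g : ℝ)) / 90) (X ^ (1 / 8 : ℝ) / Real.log X)

/-- the constant -/
noncomputable def c2 (g : ℕ) : ℝ := 1 / (13824 * 3 ^ g)

lemma c2_pos (g : ℕ) : 0 < c2 g := by unfold c2; positivity

/-- the facts on large `X` -/
structure Big (g : ℕ) (R0 : ℕ) (X : ℝ) : Prop where
  X1 : 1 ≤ X
  l8 : 8 ≤ Real.log X
  r2 : 2 ≤ rho g X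
  r0 : 2 * (R0 : ℝ) ≤ rho g X
  rl : 64 * Real.log X ≤ rho g X
  q0 : (R0 : ℝ) ≤ X ^ (1 / 9 : ℝ)
  qg : X ^ (1 / 9 : ℝ) * Real.sqrt X ≤ rho g X ^ g
  q2 : 2 ≤ X ^ (1 / 9 : ℝ)
  dj : 7 ≤ g → Real.sqrt X ≤ rho g X ^ (g - 1)
  h4 : 4 * 9 ^ g < X ^ (2 / 9 : ℝ)
  h6 : 2 * X ^ (9 / 20 : ℝ) ≤ c2 g * Real.sqrt X / (640 * Real.log X)
  h7 : 324 * 640 / c2 g ≤ Real.log X ^ 3
  h8 : 16 ≤ X ^ (1 / 20 : ℝ)

lemma rho_ge {g : ℕ} {X t : ℝ} (h1 : 90 * t ≤ X ^ (1 / (g : ℝ))) (hl : 0 < Real.log X)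
    (h2 : t * Real.log X ≤ X ^ (1 / 8 : ℝ)) : t ≤ rho g X := by
  unfold rho
  refine le_min ?_ ?_
  · linarith
  · rw [le_div_iff₀ hl]; exact h2

/-- powers of the minimum -/
lemma rho_pow_ge {g n : ℕ} {X t : ℝ} (hX : 1 ≤ X) (hl : 0 < Real.log X)
    (h1 : 90 ^ n * t ≤ X ^ ((n : ℝ) / (g : ℝ)))
    (h2 : t * Real.log X ^ n ≤ X ^ ((n : ℝ) / 8)) : t ≤ rho g X ^ n := by
  have hX0 : 0 ≤ X := by linarith
  rcases le_total (X ^ (1 / (g : ℝ)) / 90) (X ^ (1 / 8 : ℝ) / Real.log X) with h | h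
  · have e : rho g X = X ^ (1 / (g : ℝ)) / 90 := min_eq_left h
    rw [e, div_pow, ← Real.rpow_natCast (X ^ (1 / (g : ℝ))), ← Real.rpow_mul hX0,
      le_div_iff₀ (by positivity)]
    rw [show 1 / (g : ℝ) * n = n / g by ring]
    linarith
  · have e : rho g X = X ^ (1 / 8 : ℝ) / Real.log X := min_eq_right h
    rw [e, div_pow, ← Real.rpow_natCast (X ^ (1 / 8 : ℝ)), ← Real.rpow_mul hX0,
      le_div_iff₀ (by positivity)]
    rw [show 1 / 8 * (n : ℝ) = n / 8 by ring]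
    exact h2

lemma big (g : ℕ) (hg : 5 ≤ g) (R0 : ℕ) : ∀ᶠ X : ℝ in atTop, Big g R0 X := by
  have hg' : (5 : ℝ) ≤ g := by exact_mod_cast hg
  have hg0 : (0 : ℝ) < g := by linarith
  have a1 : (0 : ℝ) < 1 / g := by positivity
  have e1 := ev_pow (90 * 2) 0 a1
  have e2 := ev_pow 2 1 (r := 1 / 8) (by norm_num)
  have e3 := ev_pow (90 * (2 * R0)) 0 a1
  have e4 := ev_pow (2 * R0) 1 (r := 1 / 8) (by norm_num)
  have e5 := ev_pow (90 * 64) 1 a1
  have e6 := ev_pow 64 2 (r := 1 / 8) (by norm_num)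
  have e7 := ev_pow R0 0 (r := 1 / 9) (by norm_num)
  have e8 := ev_pow (90 ^ g) 0 (r := 1 / 2 - 1 / 9) (by norm_num)
  have hr9 : (0 : ℝ) < g / 8 - 1 / 2 - 1 / 9 := by linarith
  have e9 := ev_pow 1 g hr9
  have e10 := ev_pow 2 0 (r := 1 / 9) (by norm_num)
  have e11 : ∀ᶠ X : ℝ in atTop, 7 ≤ g → Real.sqrt X ≤ rho g X ^ (g - 1) := by
    by_cases h7 : 7 ≤ g
    · have h7' : (7 : ℝ) ≤ g := by exact_mod_cast h7
      have hc : ((g - 1 : ℕ) : ℝ) = g - 1 := by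
        rw [Nat.cast_sub (by omega)]; simp
      have r1 : (0 : ℝ) < ((g - 1 : ℕ) : ℝ) / g - 1 / 2 := by
        rw [hc, sub_div, div_self hg0.ne']
        have : 1 / (g : ℝ) ≤ 1 / 7 := one_div_le_one_div_of_le (by norm_num) h7'
        linarith
      have r2 : (0 : ℝ) < ((g - 1 : ℕ) : ℝ) / 8 - 1 / 2 := by
        rw [hc]; linarith
      have f1 := ev_pow (90 ^ (g - 1)) 0 r1
      have f2 := ev_pow 1 (g - 1) r2
      filter_upwards [f1, f2, eventually_ge_atTop (1 : ℝ), ev_log 1] with X h1 h2 hX hl _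
      have hX0 : 0 < X := by linarith
      refine rho_pow_ge hX (by linarith) ?_ ?_
      · rw [pow_zero, mul_one] at h1
        rw [Real.sqrt_eq_rpow]
        calc 90 ^ (g - 1) * X ^ (1 / 2 : ℝ)
            ≤ X ^ (((g - 1 : ℕ) : ℝ) / g - 1 / 2) * X ^ (1 / 2 : ℝ) := by gcongr
          _ = _ := by rw [← Real.rpow_add hX0]; congr 1; ring
      · rw [one_mul] at h2
        rw [Real.sqrt_eq_rpow]
        calc X ^ (1 / 2 : ℝ) * Real.log X ^ (g - 1)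
            ≤ X ^ (1 / 2 : ℝ) * X ^ (((g - 1 : ℕ) : ℝ) / 8 - 1 / 2) := by gcongr
          _ = _ := by rw [← Real.rpow_add hX0]; congr 1; ring
    · exact Eventually.of_forall fun X h => absurd h h7
  have e12 := ev_pow (4 * 9 ^ g + 1) 0 (r := 2 / 9) (by norm_num)
  have e13 := ev_pow (2 * 640 / c2 g) 1 (r := 1 / 20) (by norm_num)
  have e14 : ∀ᶠ X : ℝ in atTop, 324 * 640 / c2 g ≤ Real.log X ^ 3 := by
    filter_upwards [ev_log (324 * 640 / c2 g), ev_log 1] with X h1 h2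
    refine h1.trans ?_
    calc Real.log X = Real.log X * 1 := (mul_one _).symm
      _ ≤ Real.log X * Real.log X ^ 2 := by
          have : 1 ≤ Real.log X ^ 2 := one_le_pow₀ h2
          gcongr
      _ = _ := by ring
  have e15 := ev_pow 16 0 (r := 1 / 20) (by norm_num)
  filter_upwards [e1, e2, e3, e4, e5, e6, e7, e8, e9, e10, e11, e12, e13, e14, e15,
    eventually_ge_atTop (1 : ℝ), ev_log 8] with X e1 e2 e3 e4 e5 e6 e7 e8 e9 e10 e11 e12 e13 e14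
      e15 hX hl
  have hl0 : 0 < Real.log X := by linarith
  have hX0 : 0 < X := by linarith
  simp only [pow_zero, mul_one, pow_one, one_mul] at e1 e2 e3 e4 e5 e7 e8 e9 e10 e12 e13 e15
  refine ⟨hX, hl, rho_ge e1 hl0 e2, rho_ge e3 hl0 e4, rho_ge ?_ hl0 ?_, e7, ?_, e10, e11, ?_, ?_,
    e14, e15⟩
  · linarith
  · calc 64 * Real.log X * Real.log X = 64 * Real.log X ^ 2 := by ring
      _ ≤ _ := e6
  · rw [Real.sqrt_eq_rpow, ← Real.rpow_add hX0]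
    refine rho_pow_ge hX hl0 ?_ ?_
    · rw [div_self hg0.ne', Real.rpow_one]
      calc 90 ^ g * X ^ (1 / 9 + 1 / 2 : ℝ)
          ≤ X ^ (1 / 2 - 1 / 9 : ℝ) * X ^ (1 / 9 + 1 / 2 : ℝ) := by gcongr
        _ = X := by rw [← Real.rpow_add hX0]; norm_num
    · calc X ^ (1 / 9 + 1 / 2 : ℝ) * Real.log X ^ g
          ≤ X ^ (1 / 9 + 1 / 2 : ℝ) * X ^ ((g : ℝ) / 8 - 1 / 2 - 1 / 9) := by gcongr
        _ = _ := by rw [← Real.rpow_add hX0]; congr 1; ring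
  · linarith
  · have hc := c2_pos g
    rw [le_div_iff₀ (by positivity), Real.sqrt_eq_rpow]
    have h1 : 2 * 640 / c2 g * Real.log X * c2 g ≤ X ^ (1 / 20 : ℝ) * c2 g := by gcongr
    have h2 : 2 * 640 / c2 g * Real.log X * c2 g = 2 * 640 * Real.log X := by field_simp
    rw [h2] at h1
    calc 2 * X ^ (9 / 20 : ℝ) * (640 * Real.log X)
        = X ^ (9 / 20 : ℝ) * (2 * 640 * Real.log X) := by ring
      _ ≤ X ^ (9 / 20 : ℝ) * (X ^ (1 / 20 : ℝ) * c2 g) := by gcongr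
      _ = c2 g * (X ^ (9 / 20 : ℝ) * X ^ (1 / 20 : ℝ)) := by ring
      _ = _ := by rw [← Real.rpow_add hX0]; norm_num

/-- the parameters -/
structure Par (g : ℕ) (X : ℝ) (R Q B : ℕ) : Prop where
  R2 : 2 ≤ R
  Rle : (R : ℝ) ≤ rho g X
  Rge : rho g X ≤ 2 * R
  G : X ^ (1 / 9 : ℝ) ≤ 2 * 3 ^ g * (R : ℝ) ^ g / Real.sqrt X
  GQ : 2 * 3 ^ g * (R : ℝ) ^ g / Real.sqrt X < Q
  QG : (Q : ℝ) ≤ 2 * (2 * 3 ^ g * (R : ℝ) ^ g / Real.sqrt X)
  QX : (Q : ℝ) ≤ X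
  B1 : 1 ≤ B
  Bup : 216 * Q ^ 2 * B ≤ R ^ g
  Blo : (R : ℝ) ^ g ≤ 432 * (Q : ℝ) ^ 2 * B
  RX : (R : ℝ) ^ g ≤ X / 90 ^ g
  R4 : (R : ℝ) ^ 4 * Real.log X ^ 4 ≤ Real.sqrt X
  R1 : 90 * (R : ℝ) ≤ X ^ (1 / (g : ℝ))

lemma par {g : ℕ} (hg : 5 ≤ g) {R0 : ℕ} {X : ℝ} (h : Big g R0 X) :
    ∃ R Q B : ℕ, Par g X R Q B := by
  have hX0 : 0 < X := by linarith [h.X1]
  have hg' : (5 : ℝ) ≤ g := by exact_mod_cast hg
  have hg0 : (0 : ℝ) < g := by linarith
  have hl0 : 0 < Real.log X := by linarith [h.l8]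
  have hρ0 : 0 ≤ rho g X := by linarith [h.r2]
  obtain ⟨R, hR⟩ : ∃ R : ℕ, R = ⌊rho g X⌋₊ := ⟨_, rfl⟩
  have hRle : (R : ℝ) ≤ rho g X := by rw [hR]; exact Nat.floor_le hρ0
  have hR2 : 2 ≤ R := by rw [hR]; exact Nat.le_floor (by exact_mod_cast h.r2)
  have hRge : rho g X ≤ 2 * R := by
    have h1 : rho g X < R + 1 := by rw [hR]; exact Nat.lt_floor_add_one _
    have h2 : (2 : ℝ) ≤ R := by exact_mod_cast hR2
    linarith
  have hR0' : (0 : ℝ) < R := by positivity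
  set s := Real.sqrt X with hs
  have hs0 : 0 < s := Real.sqrt_pos.2 hX0
  have hss : s * s = X := Real.mul_self_sqrt hX0.le
  have hs1 : 1 ≤ s := by rw [hs]; exact Real.one_le_sqrt.2 h.X1
  have hsX : s ≤ X := by nlinarith
  obtain ⟨G, hG⟩ : ∃ G : ℝ, G = 2 * 3 ^ g * (R : ℝ) ^ g / s := ⟨_, rfl⟩
  have hG1 : X ^ (1 / 9 : ℝ) ≤ G := by
    rw [hG, le_div_iff₀ hs0]
    refine h.qg.trans ?_
    calc rho g X ^ g ≤ (2 * (R : ℝ)) ^ g := by gcongr
      _ = 2 ^ g * (R : ℝ) ^ g := by rw [mul_pow]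
      _ ≤ 3 ^ g * (R : ℝ) ^ g := by gcongr; norm_num
      _ ≤ 2 * 3 ^ g * (R : ℝ) ^ g := by
          have : 0 ≤ 3 ^ g * (R : ℝ) ^ g := by positivity
          linarith
  have hG2 : 2 ≤ G := h.q2.trans hG1
  have hρ1 : rho g X ≤ X ^ (1 / (g : ℝ)) / 90 := min_le_left _ _
  have hρ2 : rho g X ≤ X ^ (1 / 8 : ℝ) / Real.log X := min_le_right _ _
  have hRX : (R : ℝ) ^ g ≤ X / 90 ^ g := by
    calc (R : ℝ) ^ g ≤ (X ^ (1 / (g : ℝ)) / 90) ^ g := by
          have := hRle.trans hρ1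
          gcongr
      _ = X / 90 ^ g := by
          rw [div_pow, ← Real.rpow_natCast (X ^ (1 / (g : ℝ))), ← Real.rpow_mul hX0.le,
            one_div_mul_cancel hg0.ne', Real.rpow_one]
  have hR4 : (R : ℝ) ^ 4 * Real.log X ^ 4 ≤ s := by
    have h1 : (R : ℝ) * Real.log X ≤ X ^ (1 / 8 : ℝ) := by
      have := hRle.trans hρ2
      rwa [le_div_iff₀ hl0] at this
    calc (R : ℝ) ^ 4 * Real.log X ^ 4 = ((R : ℝ) * Real.log X) ^ 4 := by ring
      _ ≤ (X ^ (1 / 8 : ℝ)) ^ 4 := by gcongr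
      _ = s := by
          rw [← Real.rpow_natCast (X ^ (1 / 8 : ℝ)), ← Real.rpow_mul hX0.le, hs,
            Real.sqrt_eq_rpow]
          norm_num
  have hR1 : 90 * (R : ℝ) ≤ X ^ (1 / (g : ℝ)) := by
    have := hRle.trans hρ1
    linarith
  obtain ⟨Q, hQ⟩ : ∃ Q : ℕ, Q = ⌊G⌋₊ + 1 := ⟨_, rfl⟩
  have hGQ : G < Q := by rw [hQ]; push_cast; exact Nat.lt_floor_add_one _
  have hQG : (Q : ℝ) ≤ 2 * G := by
    rw [hQ]; push_cast
    have := Nat.floor_le (by linarith : 0 ≤ G)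
    linarith
  have h2G : 2 * G ≤ s := by
    rw [hG]
    have h30 : (30 : ℝ) ^ 1 ≤ 30 ^ g := pow_le_pow_right₀ (by norm_num) (by omega)
    have e90 : (90 : ℝ) ^ g = 3 ^ g * 30 ^ g := by rw [← mul_pow]; norm_num
    rw [e90] at hRX
    have h1 : 3 ^ g * (R : ℝ) ^ g ≤ X / 30 ^ g := by
      calc 3 ^ g * (R : ℝ) ^ g ≤ 3 ^ g * (X / (3 ^ g * 30 ^ g)) := by gcongr
        _ = X / 30 ^ g := by field_simp
    have h2 : X / 30 ^ g ≤ X / 30 := by
      rw [pow_one] at h30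
      gcongr
    have h3 : 2 * (2 * 3 ^ g * (R : ℝ) ^ g / s) = 4 * (3 ^ g * (R : ℝ) ^ g) / s := by ring
    rw [h3, div_le_iff₀ hs0, hss]
    linarith
  have hQX : (Q : ℝ) ≤ X := hQG.trans (h2G.trans hsX)
  have hQ0 : (0 : ℝ) < Q := by linarith
  have hQn : 0 < Q := by exact_mod_cast hQ0
  have hkey : 216 * (Q : ℝ) ^ 2 ≤ (R : ℝ) ^ g := by
    have h1 : (Q : ℝ) ^ 2 ≤ (2 * G) ^ 2 := by gcongr
    have h2 : (2 * G) ^ 2 * X = 16 * 9 ^ g * (R : ℝ) ^ g * (R : ℝ) ^ g := by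
      rw [hG, ← hss, show (9 : ℝ) ^ g = 3 ^ g * 3 ^ g by rw [← mul_pow]; norm_num]
      field_simp
      ring
    have h10 : (10 : ℝ) ^ 5 ≤ 10 ^ g := pow_le_pow_right₀ (by norm_num) hg
    have e90 : (90 : ℝ) ^ g = 9 ^ g * 10 ^ g := by rw [← mul_pow]; norm_num
    have h3 : 3456 * 9 ^ g * (R : ℝ) ^ g ≤ X := by
      calc 3456 * 9 ^ g * (R : ℝ) ^ g ≤ 3456 * 9 ^ g * (X / 90 ^ g) := by gcongr
        _ = 3456 * (X / 10 ^ g) := by rw [e90]; field_simp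
        _ ≤ 3456 * (X / 10 ^ 5) := by gcongr
        _ ≤ X := by
            have : 3456 * (X / 10 ^ 5) = X * (3456 / 10 ^ 5) := by ring
            rw [this]
            calc X * (3456 / 10 ^ 5) ≤ X * 1 := by gcongr; norm_num
              _ = X := mul_one X
    have h4 : 216 * (Q : ℝ) ^ 2 * X ≤ (R : ℝ) ^ g * X := by
      calc 216 * (Q : ℝ) ^ 2 * X ≤ 216 * (2 * G) ^ 2 * X := by gcongr
        _ = 216 * ((2 * G) ^ 2 * X) := by ring
        _ = (3456 * 9 ^ g * (R : ℝ) ^ g) * (R : ℝ) ^ g := by rw [h2]; ring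
        _ ≤ X * (R : ℝ) ^ g := by gcongr
        _ = _ := by ring
    exact le_of_mul_le_mul_right h4 hX0
  have hkey' : 216 * Q ^ 2 ≤ R ^ g := by exact_mod_cast hkey
  obtain ⟨B, hB⟩ : ∃ B : ℕ, B = R ^ g / (216 * Q ^ 2) := ⟨_, rfl⟩
  have hQ2 : 0 < 216 * Q ^ 2 := by positivity
  have hB1 : 1 ≤ B := by rw [hB]; exact (Nat.one_le_div_iff hQ2).2 hkey'
  have hBup : 216 * Q ^ 2 * B ≤ R ^ g := by rw [hB]; exact Nat.mul_div_le _ _
  have hBlo : R ^ g ≤ 216 * Q ^ 2 * (B + 1) := by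
    have h1 := Nat.div_add_mod (R ^ g) (216 * Q ^ 2)
    have h2 := Nat.mod_lt (R ^ g) hQ2
    rw [← hB] at h1
    rw [Nat.mul_add, mul_one]
    omega
  refine ⟨R, Q, B, hR2, hRle, hRge, hG ▸ hG1, hG ▸ hGQ, hG ▸ hQG, hQX, hB1, hBup, ?_, hRX, hR4,
    hR1⟩
  have h5 : (R : ℝ) ^ g ≤ 216 * (Q : ℝ) ^ 2 * (B + 1) := by exact_mod_cast hBlo
  have h6 : (1 : ℝ) ≤ B := by exact_mod_cast hB1
  calc (R : ℝ) ^ g ≤ 216 * (Q : ℝ) ^ 2 * (B + 1) := h5
    _ ≤ 216 * (Q : ℝ) ^ 2 * (2 * B) := by gcongr; linarith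
    _ = _ := by ring

/-- disjointness of the two sets of primes -/
lemma disj {g : ℕ} (hodd : Odd g) (hg : 5 ≤ g) {R0 : ℕ} {X : ℝ} (h : Big g R0 X) {R Q B : ℕ}
    (P : Par g X R Q B) : 3 * Q ≤ R ∨ 3 * R ≤ Q := by
  have hX0 : 0 < X := by linarith [h.X1]
  have hs0 : 0 < Real.sqrt X := Real.sqrt_pos.2 hX0
  have hR0 : (0 : ℝ) < R := by
    have := P.R2
    positivity
  have hl0 : 0 < Real.log X := by linarith [h.l8]
  rcases Nat.lt_or_ge g 7 with h7 | h7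
  · left
    have hg5 : g = 5 := by
      obtain ⟨t, ht⟩ := hodd
      omega
    subst hg5
    have h1 := P.QG
    have h2 := P.R4
    have h3 : (8 : ℝ) ^ 4 ≤ Real.log X ^ 4 := by
      have := h.l8
      gcongr
    have h4 : (3 * Q : ℝ) ≤ R := by
      calc (3 * Q : ℝ) ≤ 3 * (2 * (2 * 3 ^ 5 * (R : ℝ) ^ 5 / Real.sqrt X)) := by gcongr
        _ = 2916 * (R : ℝ) * (R : ℝ) ^ 4 / Real.sqrt X := by ring
        _ ≤ R := by
            rw [div_le_iff₀ hs0]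
            calc 2916 * (R : ℝ) * (R : ℝ) ^ 4 ≤ 8 ^ 4 * ((R : ℝ) * (R : ℝ) ^ 4) := by
                  have : 0 ≤ (R : ℝ) * (R : ℝ) ^ 4 := by positivity
                  norm_num
                  nlinarith
              _ ≤ Real.log X ^ 4 * ((R : ℝ) * (R : ℝ) ^ 4) := by gcongr
              _ = R * ((R : ℝ) ^ 4 * Real.log X ^ 4) := by ring
              _ ≤ R * Real.sqrt X := by gcongr
    exact_mod_cast h4
  · right
    have h1 := h.dj h7
    have h2 := P.GQ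
    have h4 : (3 * R : ℝ) ≤ Q := by
      refine le_trans ?_ h2.le
      rw [le_div_iff₀ hs0]
      calc 3 * (R : ℝ) * Real.sqrt X ≤ 3 * (R : ℝ) * rho g X ^ (g - 1) := by gcongr
        _ ≤ 3 * (R : ℝ) * (2 * (R : ℝ)) ^ (g - 1) := by
            have h5 := P.Rge
            have : 0 ≤ rho g X := by linarith [h.r2]
            gcongr
        _ = 3 * 2 ^ (g - 1) * ((R : ℝ) * (R : ℝ) ^ (g - 1)) := by rw [mul_pow]; ring
        _ = 3 * 2 ^ (g - 1) * (R : ℝ) ^ g := by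
            rw [← pow_succ', Nat.sub_add_cancel (by omega)]
        _ ≤ 3 * 3 ^ (g - 1) * (R : ℝ) ^ g := by gcongr; norm_num
        _ = 3 ^ g * (R : ℝ) ^ g := by rw [← pow_succ', Nat.sub_add_cancel (by omega)]
        _ ≤ 2 * 3 ^ g * (R : ℝ) ^ g := by
            have : 0 ≤ 3 ^ g * (R : ℝ) ^ g := by positivity
            linarith
    exact_mod_cast h4

theorem t_ANA' : S_ANA' := by
  intro hcore hprm g hodd hg
  obtain ⟨R0, hPR⟩ := hprm
  have hc2 := c2_pos g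
  refine ⟨c2 g / (160 * 8100 * 256), by positivity, ?_⟩
  obtain ⟨X0, hX0⟩ := (eventually_atTop.1 (big g hg R0))
  refine ⟨X0, fun X hX => ?_⟩
  have h := hX0 X hX
  obtain ⟨R, Q, B, P⟩ := par hg h
  have hg' : (5 : ℝ) ≤ g := by exact_mod_cast hg
  have hg0 : (0 : ℝ) < g := by linarith
  have hXp : 0 < X := by linarith [h.X1]
  have hX1 := h.X1
  have hl0 : 0 < Real.log X := by linarith [h.l8]
  have hl1 : 1 ≤ Real.log X := by linarith [h.l8]
  set ℓ := Real.log X with hℓ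
  set s := Real.sqrt X with hs
  have hs0 : 0 < s := Real.sqrt_pos.2 hXp
  have hss : s * s = X := Real.mul_self_sqrt hXp.le
  have hR2 := P.R2
  have hR0 : (0 : ℝ) < R := by positivity
  have hR1 : (1 : ℝ) < R := by exact_mod_cast hR2
  obtain ⟨G, hG⟩ : ∃ G : ℝ, G = 2 * 3 ^ g * (R : ℝ) ^ g / s := ⟨_, rfl⟩
  have hGQ : G < Q := by rw [hG]; exact P.GQ
  have hQG : (Q : ℝ) ≤ 2 * G := by rw [hG]; exact P.QG
  have hG1 : X ^ (1 / 9 : ℝ) ≤ G := by rw [hG]; exact P.G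
  have hG2 : 2 ≤ G := h.q2.trans hG1
  have hQ1 : (1 : ℝ) < Q := by linarith
  have hQ0 : (0 : ℝ) < Q := by linarith
  have hQ2 : 2 ≤ Q := by
    have : (2 : ℝ) < Q := by linarith
    exact_mod_cast this.le
  set U := (Ioc R (3 * R)).filter Nat.Prime with hU
  set V := (Ioc Q (3 * Q)).filter Nat.Prime with hV
  have hRR0 : R0 ≤ R := by
    have h1 := h.r0
    have h2 := P.Rge
    have : (R0 : ℝ) ≤ R := by linarith
    exact_mod_cast this
  have hQR0 : R0 ≤ Q := by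
    have : (R0 : ℝ) ≤ Q := by linarith [h.q0]
    exact_mod_cast this
  have hRX' : (R : ℝ) ≤ X := by
    have h1 : (R : ℝ) ≤ X ^ (1 / (g : ℝ)) := by linarith [P.R1]
    have h2 : X ^ (1 / (g : ℝ)) ≤ X ^ (1 : ℝ) := by
      apply Real.rpow_le_rpow_of_exponent_le hX1
      rw [div_le_one hg0]; linarith
    rw [Real.rpow_one] at h2
    linarith
  have hUc : (R : ℝ) / (8 * ℓ) ≤ U.card := by
    refine le_trans ?_ (hPR R hRR0)
    have hl : 0 < Real.log R := Real.log_pos hR1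
    have : Real.log R ≤ ℓ := Real.log_le_log hR0 hRX'
    gcongr
  have hVc : (Q : ℝ) / (8 * ℓ) ≤ V.card := by
    refine le_trans ?_ (hPR Q hQR0)
    have hl : 0 < Real.log Q := Real.log_pos hQ1
    have : Real.log Q ≤ ℓ := Real.log_le_log hQ0 P.QX
    gcongr
  have hu4 : (4 : ℝ) ≤ U.card := by
    refine le_trans ?_ hUc
    rw [le_div_iff₀ (by positivity)]
    have h1 := h.rl
    have h2 := P.Rge
    linarith
  have hD : Dat g R Q B U V := by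
    refine ⟨hodd, hR2, hQ2, ?_, ?_, ?_, ?_⟩
    · intro a ha
      rw [hU, mem_filter, mem_Ioc] at ha
      exact ⟨ha.2, ha.1.1, ha.1.2⟩
    · intro a ha
      rw [hV, mem_filter, mem_Ioc] at ha
      exact ⟨ha.2, ha.1.1, ha.1.2⟩
    · rw [Finset.disjoint_left]
      intro a ha hb
      rw [hU, mem_filter, mem_Ioc] at ha
      rw [hV, mem_filter, mem_Ioc] at hb
      have := disj hodd hg h P
      omega
    · have h1 := P.Bup
      have h2 : 0 < R ^ g := by positivity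
      have h3 : 108 * Q ^ 2 * B * 2 ≤ R ^ g := by
        calc 108 * Q ^ 2 * B * 2 = 216 * Q ^ 2 * B := by ring
          _ ≤ _ := h1
      omega
  have hk : 4 * (9 * R ^ 2) ^ g < Q ^ (2 * 10) := by
    have h1 : (4 * (9 * (R : ℝ) ^ 2) ^ g) < (Q : ℝ) ^ (2 * 10) := by
      have h2 : (R : ℝ) ^ g ≤ X := by
        refine P.RX.trans (div_le_self hXp.le (one_le_pow₀ (by norm_num)))
      calc 4 * (9 * (R : ℝ) ^ 2) ^ g = 4 * 9 ^ g * ((R : ℝ) ^ g) ^ 2 := by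
            rw [mul_pow, ← pow_mul, ← pow_mul, mul_comm 2 g]; ring
        _ ≤ 4 * 9 ^ g * X ^ 2 := by gcongr
        _ < X ^ (2 / 9 : ℝ) * X ^ 2 := by
            have := h.h4
            gcongr
        _ = (X ^ (1 / 9 : ℝ)) ^ (2 * 10) := by
            rw [← Real.rpow_natCast (X ^ (1 / 9 : ℝ)), ← Real.rpow_mul hXp.le,
              ← Real.rpow_natCast X 2, ← Real.rpow_add hXp]
            norm_num
        _ ≤ (Q : ℝ) ^ (2 * 10) := by
            have : X ^ (1 / 9 : ℝ) ≤ Q := by linarith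
            gcongr
    exact_mod_cast h1
  obtain ⟨Z, hZ⟩ : ∃ Z : ℕ, Z = V.card * B / 320 := ⟨_, rfl⟩
  obtain ⟨S, hS, hprop⟩ := hcore g R Q B Z 10 U V hD hk
  obtain ⟨W, hW⟩ : ∃ W : ℝ, W = V.card * B := ⟨_, rfl⟩
  have hW0 : 0 ≤ W := by rw [hW]; positivity
  have hWlo : c2 g * s / ℓ ≤ W := by
    have h1 := P.Blo
    have hB0 : (0 : ℝ) ≤ B := by positivity
    have h2 : (R : ℝ) ^ g / (432 * (Q : ℝ) ^ 2) ≤ B := by
      rw [div_le_iff₀ (by positivity)]; linarith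
    calc c2 g * s / ℓ = (R : ℝ) ^ g / (3456 * (2 * G) * ℓ) := by
          rw [hG]; unfold c2; field_simp; norm_num
      _ ≤ (R : ℝ) ^ g / (3456 * Q * ℓ) := by gcongr
      _ = (Q : ℝ) / (8 * ℓ) * ((R : ℝ) ^ g / (432 * (Q : ℝ) ^ 2)) := by field_simp; norm_num
      _ ≤ V.card * B := by gcongr
      _ = W := hW.symm
  have hZup : 320 * (Z : ℝ) ≤ W := by
    have : 320 * Z ≤ V.card * B := by rw [hZ]; exact Nat.mul_div_le _ _
    rw [hW]; exact_mod_cast this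
  have hZlo : W ≤ 320 * (Z + 1) := by
    have h1 : V.card * B ≤ 320 * (Z + 1) := by rw [hZ]; omega
    rw [hW]; exact_mod_cast h1
  -- the lower bound for `Z`
  have hX920 : 1 ≤ X ^ (9 / 20 : ℝ) := Real.one_le_rpow hX1 (by norm_num)
  have h6 := h.h6
  have hhalf : c2 g * s / ℓ / 320 = 2 * (c2 g * s / (640 * ℓ)) := by field_simp; norm_num
  have hZ1 : c2 g * s / (640 * ℓ) ≤ Z := by
    have h1 : c2 g * s / ℓ / 320 ≤ Z + 1 := by
      rw [div_le_iff₀ (by norm_num)]; linarith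
    rw [hhalf] at h1
    linarith
  have hZ2 : X ^ (9 / 20 : ℝ) ≤ Z := by linarith
  have hZ3 : 324 * (R : ℝ) ^ 4 ≤ Z := by
    refine le_trans ?_ hZ1
    have h7 := h.h7
    rw [div_le_iff₀ hc2] at h7
    have h8 := P.R4
    rw [le_div_iff₀ (by positivity)]
    have h9 : 324 * (R : ℝ) ^ 4 * (640 * ℓ) * ℓ ^ 3 ≤ c2 g * s * ℓ ^ 3 := by
      calc 324 * (R : ℝ) ^ 4 * (640 * ℓ) * ℓ ^ 3
          = 324 * 640 * ((R : ℝ) ^ 4 * ℓ ^ 4) := by ring
        _ ≤ 324 * 640 * s := by gcongr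
        _ ≤ ℓ ^ 3 * c2 g * s := by gcongr
        _ = _ := by ring
    exact le_of_mul_le_mul_right h9 (by positivity)
  refine ⟨S, ?_, ?_⟩
  · -- the count
    have h1 : (V.card : ℝ) * (U.card * ((U.card : ℝ) - 2)) * B ≤
        40 * (S.card + 2 * (U.card : ℝ) ^ 2 * Z) := by
      have h2 : 2 ≤ U.card := by
        have : (2 : ℝ) ≤ U.card := by linarith
        exact_mod_cast this
      have h3 : ((V.card * (U.card * (U.card - 2)) * B : ℕ) : ℝ) ≤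
        ((4 * 10 * (S.card + 2 * U.card ^ 2 * Z) : ℕ) : ℝ) := by exact_mod_cast hS
      push_cast [Nat.cast_sub h2] at h3
      linarith
    obtain ⟨u, hu⟩ : ∃ u : ℝ, u = U.card := ⟨_, rfl⟩
    rw [← hu] at h1 hu4 hUc
    have h2 : u ^ 2 / 2 ≤ u * (u - 2) := by nlinarith
    have h3 : W * (u ^ 2 / 2) ≤ 40 * S.card + u ^ 2 * W / 4 := by
      calc W * (u ^ 2 / 2) ≤ W * (u * (u - 2)) := by gcongr
        _ = V.card * (u * (u - 2)) * B := by rw [hW]; ring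
        _ ≤ 40 * (S.card + 2 * u ^ 2 * Z) := h1
        _ = 40 * S.card + u ^ 2 * (320 * Z) / 4 := by ring
        _ ≤ _ := by gcongr
    have h4 : W * u ^ 2 ≤ 160 * S.card := by nlinarith
    -- the lower bound for `rho`
    have hmu0 : 0 ≤ min (1 / 4) (2 / (g : ℝ)) := by positivity
    have hρ : X ^ (min (1 / 4) (2 / (g : ℝ))) ≤ 8100 * ℓ ^ 2 * rho g X ^ 2 := by
      have hl2 : 1 ≤ ℓ ^ 2 := one_le_pow₀ hl1
      rcases le_total (X ^ (1 / (g : ℝ)) / 90) (X ^ (1 / 8 : ℝ) / Real.log X) with hh | hh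
      · have e : rho g X = X ^ (1 / (g : ℝ)) / 90 := min_eq_left hh
        rw [e]
        calc X ^ (min (1 / 4) (2 / (g : ℝ))) ≤ X ^ (2 / (g : ℝ)) :=
              Real.rpow_le_rpow_of_exponent_le hX1 (min_le_right _ _)
          _ = (X ^ (1 / (g : ℝ))) ^ 2 := by
              rw [← Real.rpow_natCast (X ^ (1 / (g : ℝ))), ← Real.rpow_mul hXp.le]
              congr 1; push_cast; ring
          _ = 1 * (X ^ (1 / (g : ℝ))) ^ 2 := (one_mul _).symm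
          _ ≤ ℓ ^ 2 * (X ^ (1 / (g : ℝ))) ^ 2 := by gcongr
          _ = _ := by ring
      · have e : rho g X = X ^ (1 / 8 : ℝ) / ℓ := min_eq_right hh
        rw [e]
        calc X ^ (min (1 / 4) (2 / (g : ℝ))) ≤ X ^ (1 / 4 : ℝ) :=
              Real.rpow_le_rpow_of_exponent_le hX1 (min_le_left _ _)
          _ = (X ^ (1 / 8 : ℝ)) ^ 2 := by
              rw [← Real.rpow_natCast (X ^ (1 / 8 : ℝ)), ← Real.rpow_mul hXp.le]
              congr 1; norm_num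
          _ ≤ 8100 * (X ^ (1 / 8 : ℝ)) ^ 2 := by
              have : 0 ≤ (X ^ (1 / 8 : ℝ)) ^ 2 := by positivity
              linarith
          _ = _ := by field_simp
    have hu2 : rho g X / (16 * ℓ) ≤ u := by
      refine le_trans ?_ hUc
      rw [div_le_div_iff₀ (by positivity) (by positivity)]
      have := P.Rge
      nlinarith
    have hr0 : 0 ≤ rho g X := by linarith [h.r2]
    have h5 : rho g X ^ 2 / (256 * ℓ ^ 2) ≤ u ^ 2 := by
      calc rho g X ^ 2 / (256 * ℓ ^ 2) = (rho g X / (16 * ℓ)) ^ 2 := by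
            rw [div_pow, mul_pow]; norm_num
        _ ≤ u ^ 2 := by gcongr
    have h6' : X ^ (1 / 2 + min (1 / 4) (2 / (g : ℝ)) : ℝ) =
        s * X ^ (min (1 / 4) (2 / (g : ℝ))) := by
      rw [Real.rpow_add hXp, hs, Real.sqrt_eq_rpow]
    rw [h6']
    calc c2 g / (160 * 8100 * 256) * (s * X ^ (min (1 / 4) (2 / (g : ℝ)))) / ℓ ^ 5
        ≤ c2 g / (160 * 8100 * 256) * (s * (8100 * ℓ ^ 2 * rho g X ^ 2)) / ℓ ^ 5 := by gcongr
      _ = (c2 g * s / ℓ) * (rho g X ^ 2 / (256 * ℓ ^ 2)) / 160 := by field_simp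
      _ ≤ W * u ^ 2 / 160 := by gcongr
      _ ≤ S.card := by linarith
  · intro x hx
    obtain ⟨p1, p2, p3, p4, p5, d, q, d1, d2, d3, d4, d5⟩ := hprop x hx
    have px : (x.1 : ℝ) < 9 * (R : ℝ) ^ 2 := by exact_mod_cast p2
    have hd3 : (Z : ℝ) ≤ d := by exact_mod_cast d3
    have hQq : (Q : ℝ) < q := by exact_mod_cast d4
    refine ⟨p1, p3, p4, p5, ?_, d, q, d1, d2, hZ2.trans hd3, ?_, ?_, d5⟩
    · intro j hj
      have hj' : (5 : ℝ) * j ≤ g := by exact_mod_cast hj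
      have q1 : (x.1 : ℝ) ≤ X ^ (2 / (g : ℝ)) := by
        have h1 := P.R1
        have h2 : (90 * (R : ℝ)) ^ 2 ≤ (X ^ (1 / (g : ℝ))) ^ 2 := by gcongr
        have h3 : (X ^ (1 / (g : ℝ))) ^ 2 = X ^ (2 / (g : ℝ)) := by
          rw [← Real.rpow_natCast (X ^ (1 / (g : ℝ))), ← Real.rpow_mul hXp.le]
          congr 1; push_cast; ring
        rw [h3] at h2
        nlinarith [sq_nonneg (R : ℝ)]
      have q2 : (x.1 : ℝ) ^ j ≤ X ^ (2 / 5 : ℝ) := by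
        calc (x.1 : ℝ) ^ j ≤ (X ^ (2 / (g : ℝ))) ^ j := by gcongr
          _ = X ^ (2 / (g : ℝ) * j) := by
              rw [← Real.rpow_natCast (X ^ (2 / (g : ℝ))), ← Real.rpow_mul hXp.le]
          _ ≤ X ^ (2 / 5 : ℝ) := by
              apply Real.rpow_le_rpow_of_exponent_le hX1
              rw [div_mul_eq_mul_div, div_le_div_iff₀ hg0 (by norm_num)]
              linarith
      calc 16 * (x.1 : ℝ) ^ j ≤ X ^ (1 / 20 : ℝ) * X ^ (2 / 5 : ℝ) := by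
            have := h.h8
            gcongr
        _ = _ := by rw [← Real.rpow_add hXp]; norm_num
    · -- `d < X`
      have e1 : (d : ℝ) * (q : ℝ) ^ 2 ≤ 4 * (x.1 : ℝ) ^ g := by
        have : (x.2 : ℝ) ^ 2 + d * (q : ℝ) ^ 2 = 4 * (x.1 : ℝ) ^ g := by exact_mod_cast d5
        nlinarith [sq_nonneg (x.2 : ℝ)]
      have e2 : 4 * (x.1 : ℝ) ^ g ≤ 4 * (9 * (R : ℝ) ^ 2) ^ g := by gcongr
      have e3 : 4 * (9 * (R : ℝ) ^ 2) ^ g = G ^ 2 * X := by
        rw [hG, ← hss, mul_pow, ← pow_mul, show (9 : ℝ) ^ g = 3 ^ g * 3 ^ g by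
          rw [← mul_pow]; norm_num, mul_comm 2 g, pow_mul]
        field_simp
        ring
      have e4 : G ^ 2 * X < (q : ℝ) ^ 2 * X := by
        have : G < q := hGQ.trans hQq
        gcongr
      have hq0 : (0 : ℝ) < (q : ℝ) ^ 2 := by
        have : (0 : ℝ) < q := by linarith
        positivity
      have e5 : (d : ℝ) * (q : ℝ) ^ 2 < X * (q : ℝ) ^ 2 := by
        rw [e3] at e2; linarith
      exact lt_of_mul_lt_mul_right e5 hq0.le
    · have e1 : 4 * (x.1 : ℝ) ^ 2 < d := by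
        have hx0 : (0 : ℝ) ≤ x.1 := by positivity
        calc 4 * (x.1 : ℝ) ^ 2 < 4 * (9 * (R : ℝ) ^ 2) ^ 2 := by gcongr
          _ = 324 * (R : ℝ) ^ 4 := by ring
          _ ≤ Z := hZ3
          _ ≤ d := hd3
      exact_mod_cast e1

end Pool.Agent.Y726.CT
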